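import Pool.Agent.H98.EX.BTargets

/-!
# Row BF2: the chains of the base with long excursions of two kinds

Model: `Pool.Agent.H98.CEU.BFM` (helper98).
-/

set_option autoImplicit false

open MeasureTheory ProbabilityTheory Filter Topology
open scoped ENNReal
open Pool.Agent.H95 Pool.Agent.H95.Cop Pool.Agent.H96.Cop
open Pool.Agent.H99.CE (NX w0 w1 BX CT TT PF)
open Pool.Agent.H98.EX

namespace Pool.Agent.H55.EX

lemma bf2_lt {n0 J j c : ℕ} (hj : j < J) (hc : c ∈ TT n0 j) : c < J * n0 := by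
  have h1 := (Finset.mem_Ico.1 hc).2
  exact lt_of_lt_of_le h1 (Nat.mul_le_mul_right n0 hj)

lemma bf2_CT {G : ℕ → (ℕ → ℝ) → ℝ≥0∞} (hG : ∀ b, Measurable (G b)) (T : Finset ℕ) (p : ℕ) :
    Measurable (CT G T p) := by
  have h : CT G T p = fun x => ∑ j ∈ T, if p ≤ j then G (j - p) x else 0 := rfl
  rw [h]
  refine Finset.measurable_sum _ fun j _ => ?_
  by_cases hp : p ≤ j
  · simp only [if_pos hp]
    exact hG _
  · simp only [if_neg hp]
    exact measurable_const

/-- comparison of the double sums -/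
lemma bf2_dsum (p c L : ℕ) (hc : c < L) (F : ℕ → ℕ → ℝ≥0∞) :
    ∑ i ∈ Finset.range (c - p + 1), ∑ D ∈ Finset.Icc 1 (c - p),
      (if i + D ≤ c - p then F i D else 0) ≤
    ∑ i ∈ Finset.range (L - p), ∑ D ∈ Finset.Icc 1 (L - 1 - p - i),
      (if p + i + D ≤ c then F i D else 0) := by
  by_cases hp : p ≤ c
  · calc _ ≤ ∑ i ∈ Finset.range (c - p + 1), ∑ D ∈ Finset.Icc 1 (L - 1 - p - i),
          (if p + i + D ≤ c then F i D else 0) := by
          refine Finset.sum_le_sum fun i hi => ?_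
          rw [← Finset.sum_filter, ← Finset.sum_filter]
          refine Finset.sum_le_sum_of_subset fun D hD => ?_
          rw [Finset.mem_filter, Finset.mem_Icc] at hD ⊢
          omega
      _ ≤ _ := by
          refine Finset.sum_le_sum_of_subset fun i hi => ?_
          rw [Finset.mem_range] at hi ⊢
          omega
  · have h0 : c - p = 0 := by omega
    rw [h0]
    simp

lemma bf2_fin (K : PMF ℕ) (k : ℕ) (hPF : ∀ s x, PF (w0 K k k) s x ≠ ∞) (p r : Bool) (a : ℕ)
    (x : ℕ → ℝ) : NX (w0 K k k) k p r a x ≠ ∞ := by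
  unfold NX
  refine ENNReal.sum_ne_top.2 fun e _ => ENNReal.sum_ne_top.2 fun t _ => ?_
  split_ifs <;> first
    | exact ENNReal.zero_ne_top
    | exact ENNReal.mul_ne_top (ENNReal.mul_ne_top ENNReal.ofReal_ne_top (hPF _ _))
        ENNReal.ofReal_ne_top
    | exact ENNReal.mul_ne_top (ENNReal.mul_ne_top ENNReal.ofReal_ne_top (hPF _ _))
        ENNReal.one_ne_top
    | exact ENNReal.mul_ne_top (ENNReal.mul_ne_top ENNReal.one_ne_top (hPF _ _))
        ENNReal.ofReal_ne_top
    | exact ENNReal.mul_ne_top (ENNReal.mul_ne_top ENNReal.one_ne_top (hPF _ _))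
        ENNReal.one_ne_top

/-- the recursion -/
lemma bf2_rec (hUD2 : T_UD2) (K : PMF ℕ) (n0 k : ℕ) (ga gb : ℕ → ℝ≥0∞) (hk : 1 ≤ k)
    (hn0 : 1 ≤ n0)
    (hga : ∀ D m : ℕ, 1 ≤ D → k < m → m ≤ n0 * k → (D - 1) * k < m → m < (D + 1) * k →
      pk K m * 2⁻¹ ≤ ga D)
    (hgb : ∀ D m : ℕ, 1 ≤ D → k < m → (D - 1) * k < m → m < (D + 1) * k → pk K m * 2⁻¹ ≤ gb D)
    (J j : ℕ) (hj : j < J) (p : Bool) (a : ℕ) (x : ℕ → ℝ) :
    CT (NX (w1 K (n0 * k)) k p false) (TT n0 j) a x ≤
      (∑ c ∈ TT n0 j, if a ≤ c then NX (w0 K k k) k p false (c - a) x else 0) +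
      ∑ i ∈ Finset.range (J * n0 - a), ∑ D ∈ Finset.Icc 1 (J * n0 - 1 - a - i),
        (NX (w0 K k k) k p false i x * (ga D *
          CT (NX (w1 K (n0 * k)) k false false) (TT n0 j) (a + i + D) (shift ((i + D) * k) x)) +
        NX (w0 K k k) k p true i x * (gb D * ex ((i + 1) * k) ((i + D) * k) x *
          CT (NX (w1 K (n0 * k)) k true false) (TT n0 j) (a + i + D)
            (shift ((i + D) * k) x))) := by
  have hkB : k ≤ n0 * k := Nat.le_mul_of_pos_left k hn0
  have hR : ∑ i ∈ Finset.range (J * n0 - a), ∑ D ∈ Finset.Icc 1 (J * n0 - 1 - a - i),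
        (NX (w0 K k k) k p false i x * (ga D *
          CT (NX (w1 K (n0 * k)) k false false) (TT n0 j) (a + i + D) (shift ((i + D) * k) x)) +
        NX (w0 K k k) k p true i x * (gb D * ex ((i + 1) * k) ((i + D) * k) x *
          CT (NX (w1 K (n0 * k)) k true false) (TT n0 j) (a + i + D)
            (shift ((i + D) * k) x))) =
      ∑ c ∈ TT n0 j, ∑ i ∈ Finset.range (J * n0 - a),
        ∑ D ∈ Finset.Icc 1 (J * n0 - 1 - a - i), if a + i + D ≤ c then
          (NX (w0 K k k) k p false i x * (ga D *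
            NX (w1 K (n0 * k)) k false false (c - (a + i + D)) (shift ((i + D) * k) x)) +
          NX (w0 K k k) k p true i x * (gb D * ex ((i + 1) * k) ((i + D) * k) x *
            NX (w1 K (n0 * k)) k true false (c - (a + i + D)) (shift ((i + D) * k) x)))
          else 0 := by
    rw [Finset.sum_comm]
    refine Finset.sum_congr rfl fun i _ => ?_
    rw [Finset.sum_comm]
    refine Finset.sum_congr rfl fun D _ => ?_
    rw [CT, CT, Finset.mul_sum, Finset.mul_sum, Finset.mul_sum, Finset.mul_sum,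
      ← Finset.sum_add_distrib]
    refine Finset.sum_congr rfl fun c _ => ?_
    by_cases h : a + i + D ≤ c
    · simp only [if_pos h]
    · simp only [if_neg h, mul_zero, add_zero]
  rw [hR, CT, ← Finset.sum_add_distrib]
  refine Finset.sum_le_sum fun c hc => ?_
  by_cases hpc : a ≤ c
  · rw [if_pos hpc, if_pos hpc]
    refine (hUD2 K k (n0 * k) ga gb hk hkB hga hgb p (c - a) x).trans (add_le_add le_rfl ?_)
    have e2 : ∀ i D, c - a - i - D = c - (a + i + D) := fun i D => by omega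
    simp only [e2]
    exact bf2_dsum a c (J * n0) (bf2_lt hj hc) (fun i D =>
      NX (w0 K k k) k p false i x * (ga D *
        NX (w1 K (n0 * k)) k false false (c - (a + i + D)) (shift ((i + D) * k) x)) +
      NX (w0 K k k) k p true i x * (gb D * ex ((i + 1) * k) ((i + D) * k) x *
        NX (w1 K (n0 * k)) k true false (c - (a + i + D)) (shift ((i + D) * k) x)))
  · rw [if_neg hpc, if_neg hpc, zero_add]
    exact zero_le

theorem pf_BF2 (hPFM : Pool.Agent.H99.CE.T_PFM) (hBBX : Pool.Agent.H99.CE.T_BBX)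
    (hUD2 : T_UD2) : T_BF2 := by
  intro K n0 k ga gb hk hn0 hga hgb J j hj
  have hw1 := (hPFM.2 K).1 (n0 * k)
  have hw0 := (hPFM.2 K).2 k k
  have hN1 := (hPFM.1 _ hw1).2.2
  have hN0 := (hPFM.1 _ hw0).2.2
  have hP0 := (hPFM.1 _ hw0).1
  refine ⟨⟨fun p r a => ⟨(hN0 k p r a).1, (hN0 k p r a).2, fun x =>
    bf2_fin K k (fun s x => (hP0 s).2.2 x) p r a x⟩,
    fun p a => bf2_CT (fun b => (hN1 k p false b).1) _ a, ?_⟩, ?_⟩
  · intro p a _ x
    exact bf2_rec hUD2 K n0 k ga gb hk hn0 hga hgb J j hj p a x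
  · intro x
    rw [hBBX (w1 K (n0 * k)) k n0 j x hk hn0]
    have hBN : ∀ (w : ℕ → (ℕ → ℝ) → ℝ≥0∞) a y, BX w k a y = NX w k false false a y := by
      intro w a y
      unfold BX NX
      simp
    have hT : ∀ c, (∑ r ∈ Finset.range n0, if c ≤ j * n0 + r then
        BX (w1 K (n0 * k)) k (j * n0 + r - c) (shift (c * k) x) else 0) =
        CT (NX (w1 K (n0 * k)) k false false) (TT n0 j) c (shift (c * k) x) := by
      intro c
      rw [CT, TT, Finset.sum_Ico_eq_sum_range]
      have h1 : (j + 1) * n0 - j * n0 = n0 := by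
        rw [Nat.add_mul, one_mul, Nat.add_sub_cancel_left]
      rw [h1]
      simp only [hBN]
    simp only [hT]
    rw [← Finset.sum_add_distrib]
    refine Finset.sum_le_sum fun c _ => ?_
    refine (bf2_rec hUD2 K n0 k ga gb hk hn0 hga hgb J j hj false c (shift (c * k) x)).trans
      (le_of_eq ?_)
    simp only [hBN]
    refine congrArg₂ (· + ·) rfl ?_
    refine Finset.sum_congr rfl fun i _ => Finset.sum_congr rfl fun D _ => ?_
    rw [ex_shift, shift_shift]
    have e4 : (i + 1) * k + c * k = (c + i + 1) * k := by ring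
    have e5 : (i + D) * k + c * k = (c + i + D) * k := by ring
    rw [e4, e5]

end Pool.Agent.H55.EX
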